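import Pool.Agent.H9SA.Fin
import Pool.Agent.H9SA.Smt

/-!
The stretching action at the singular points of Navier-Stokes flows.

`V` is `ℝ³` with the maximum norm (the balls are cubes) and `vort v` is the curl of `v`. A point `a`
is singular at the time `T` (`Sing T u a`) if `u` is unbounded in every neighbourhood of `(T, a)`.

Let `ω` be the vorticity and `ξ = ω / |ω|` its direction. The rate of growth of `|ω|` along the flow
is at most `ξ · ∇u ξ - ν |∇ξ|²` up to a diffusion. At a singular point `a` there is a polygonal path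
`x(t)`, `T₀ ≤ t < T`, from `a` to `a`, in an arbitrarily small neighbourhood of `a`, which collects
this rate at the points at which `|ω|` is larger than a given threshold `d(t)` and pays
`(c / ν) |x' - u|²` for its deviation from the flow (`1 / (4 ν)` is the cost of Freidlin-Wentzell
for the diffusion of the vorticity), and whose balance is larger than
`γ log (1 / (T - t)) - log d(t) + C` at a sequence of times which tends to `T`, for all `c < 1 / 4`,
`γ < (1 + 3 √(1 - 4 c)) / 4` and `C`.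

So there is no singular point `a` if, near `(T, a)`, where `|ω| > (T - t) ^ (-k)`, the rate
`ξ · ∇u ξ - ν |∇ξ|²` is at most `g / (T - t) + h(t)`, with `g + k < 1` and an integrable `h`: take
`c = 0`.
-/

set_option autoImplicit false

open MeasureTheory Set Filter Topology
open scoped ContDiff
open H459R3.NS Pool.Agent.W268.NS
open Pool.Agent.Q85.CL (Sing Blow DSl WSl)

namespace Pool.Agent.H9SA.Out.StretchingAction

/-- The cut-off functions: smooth, `0` on `(-∞, 1]`, `1` on `[2, ∞)`, with values in `[0, 1]` and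
with `λ (1 - λ) ≤ 2 s λ'`, as `Real.smoothTransition (s - 1)` (`cutOff_smoothTransition`). -/
structure CutOff (lam : ℝ → ℝ) : Prop where
  smooth : ContDiff ℝ ∞ lam
  nonneg : ∀ s, 0 ≤ lam s
  le_one : ∀ s, lam s ≤ 1
  eq_zero : ∀ s ≤ 1, lam s = 0
  eq_one : ∀ s, 2 ≤ s → lam s = 1
  growth : ∀ s, 0 < s → lam s * (1 - lam s) ≤ 2 * s * deriv lam s

/-- For `ω = curl v` and `ξ = ω / |ω|`: the rate `ξ · ∇v ξ - ν |∇ξ|²` times `λ(|ω|² / d²)`. This is
`0` where `|ω| ≤ d`. Here `ξ · ∇v ξ = ∑ ω_k (∂_k v_i) ω_i / |ω|²` and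
`|∇ξ|² = (|ω|² ∑ (∂_j ω_i)² - ∑_j (∑_i ω_i ∂_j ω_i)²) / |ω|⁴`. -/
noncomputable def rate (ν d : ℝ) (lam : ℝ → ℝ) (v : V → V) (x : V) : ℝ :=
  lam ((∑ i, vort v x i ^ 2) / d ^ 2) *
    ((∑ i, ∑ k, vort v x k * pd k (fun y => v y i) x * vort v x i) / (∑ i, vort v x i ^ 2)
    - ν * ((∑ i, vort v x i ^ 2) * (∑ j, ∑ i, pd j (fun y => vort v y i) x ^ 2)
      - ∑ j, (∑ i, vort v x i * pd j (fun y => vort v y i) x) ^ 2)
        / (∑ i, vort v x i ^ 2) ^ 2)

/-- The action of the segment `x(τ) = y + (τ - s) / (t - s) (x - y)` from `(s, y)` to `(t, x)`: the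
integral of the rate minus `(c / ν) |x' - u|²`. -/
noncomputable def segAction (ν c : ℝ) (d : ℝ → ℝ) (lam : ℝ → ℝ) (u : ℝ → V → V) (s : ℝ) (y : V)
    (t : ℝ) (x : V) : ℝ :=
  ∫ τ in s..t, (rate ν (d τ) lam (u τ) (y + ((τ - s) / (t - s)) • (x - y))
    - c / ν * ∑ i, ((x i - y i) / (t - s) - u τ (y + ((τ - s) / (t - s)) • (x - y)) i) ^ 2)

/-- For all `T₀` in `(0, T)`, `R > 0`, all smooth, positive, nondecreasing thresholds `d` on
`(0, T)` and all cut-off functions there is a polygonal path with the vertices `y n` at the times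
`τ n`, from `a` at the time `T₀`, in the cube `‖y - a‖ ≤ R`, which tends to `a` as `τ n → T`, such
that for all `0 ≤ c < 1 / 4`, `γ < (1 + 3 √(1 - 4 c)) / 4` and `C` the action of the path up to the
time `τ n` is larger than `γ log (1 / (T - τ n)) - log (d (τ n)) + C` for infinitely many `n`. -/
def StretchingAt (ν T : ℝ) (u : ℝ → V → V) (a : V) : Prop :=
  ∀ (T₀ R : ℝ) (d lam : ℝ → ℝ), 0 < T₀ → T₀ < T → 0 < R → ContDiffOn ℝ ∞ d (Ioo 0 T) →
    (∀ t ∈ Ioo 0 T, 0 < d t) → MonotoneOn d (Ioo 0 T) → CutOff lam →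
    ∃ (τ : ℕ → ℝ) (y : ℕ → V), τ 0 = T₀ ∧ y 0 = a ∧ StrictMono τ ∧ Tendsto τ atTop (𝓝 T) ∧
      (∀ n, ‖y n - a‖ ≤ R) ∧ Tendsto y atTop (𝓝 a) ∧
      ∀ c γ : ℝ, 0 ≤ c → c < 1 / 4 → γ < (1 + 3 * √(1 - 4 * c)) / 4 → ∀ C : ℝ, ∃ᶠ n in atTop,
        γ * Real.log (1 / (T - τ n)) + C < Real.log (d (τ n)) +
          ∑ i ∈ Finset.range n, segAction ν c d lam u (τ i) (y i) (τ (i + 1)) (y (i + 1))

/-- There are cut-off functions. -/
theorem cutOff_smoothTransition : CutOff (fun s => Real.smoothTransition (s - 1)) :=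
  let h := H9SA.cut1_smoothTransition
  ⟨h.sm, h.nn, h.le, h.lo, h.hi, h.ode⟩

theorem stretchingAt_of {ν T : ℝ} {u : ℝ → V → V} {a : V} (h : H9SA.ActAt ν T u a) :
    StretchingAt ν T u a :=
  fun T₀ R d lam h1 h2 h3 h4 h5 h6 h7 => h T₀ R d lam h1 h2 h3 h4 h5 h6
    ⟨h7.smooth, h7.nonneg, h7.le_one, h7.eq_zero, h7.eq_one, h7.growth⟩

/-- The stretching action at the singular points, for smooth solutions of the Navier-Stokes
equations without force, with viscosity `ν > 0`,

(a) in `(0, T) × Ω`, `Ω` open, with finite energy, finite dissipation and integrable pressure;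

(b) in `(0, T) × ℝ³` with bounded energy, finite dissipation and locally integrable pressure;

(c) periodic, on `[0, T) × ℝ³`.

In the cases (b) and (c) there is a singular point if `u` is unbounded near the time `T`. -/
theorem result (ν T : ℝ) (u : ℝ → V → V) (p : ℝ → V → ℝ) (hν : 0 < ν) :
    (∀ (E : ℝ) (Ω : Set V), DSl ν T E Ω u p → ∀ a ∈ Ω, Sing T u a → StretchingAt ν T u a) ∧
    (∀ E : ℝ, WSl ν T E u p →
      (Blow T u → ∃ a, Sing T u a) ∧ ∀ a, Sing T u a → StretchingAt ν T u a) ∧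
    (IsSol ν T u p → (Blow T u → ∃ a, Sing T u a) ∧ ∀ a, Sing T u a → StretchingAt ν T u a) :=
  ⟨fun _ _ h _ ha hs => stretchingAt_of (H9SA.actD hν h ha hs),
    fun _ h => ⟨(H9SA.actW hν h).1, fun a hs => stretchingAt_of ((H9SA.actW hν h).2 a hs)⟩,
    fun h => ⟨(H9SA.actP hν h).1, fun a hs => stretchingAt_of ((H9SA.actP hν h).2 a hs)⟩⟩

end Pool.Agent.H9SA.Out.StretchingAction
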